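import Mathlib

set_option autoImplicit false

open Filter Topology Set

namespace Pool.Agent.R221.KP

/-- terms of the lacunary series -/
noncomputable def term (i : ℕ) (t : ℝ) (j : ℕ) : ℂ :=
  ((1 / 4 : ℝ) ^ (3 * j + i) : ℝ) * Complex.exp (Complex.I * ((16 ^ (3 * j + i) * t : ℝ) : ℂ))

/-- lacunary series -/
noncomputable def Z (i : ℕ) (t : ℝ) : ℂ := ∑' j, term i t j

lemma norm_term (i : ℕ) (t : ℝ) (j : ℕ) : ‖term i t j‖ = (1 / 4 : ℝ) ^ (3 * j + i) := by
  unfold term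
  rw [norm_mul, Complex.norm_real, Complex.norm_exp_I_mul_ofReal, mul_one,
    Real.norm_of_nonneg (by positivity)]

lemma summable_aux (i : ℕ) : Summable fun j : ℕ => (1 / 4 : ℝ) ^ (3 * j + i) := by
  have := (summable_geometric_of_lt_one (r := (1 / 64 : ℝ)) (by norm_num)
    (by norm_num)).mul_right ((1 / 4 : ℝ) ^ i)
  refine this.congr fun j => ?_
  rw [pow_add, pow_mul]; norm_num

lemma summable_term (i : ℕ) (t : ℝ) : Summable (term i t) :=
  Summable.of_norm ((summable_aux i).congr fun j => (norm_term i t j).symm)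

lemma continuous_Z (i : ℕ) : Continuous (Z i) := by
  unfold Z
  refine continuous_tsum (u := fun j : ℕ => (1 / 4 : ℝ) ^ (3 * j + i)) (fun j => ?_)
    (summable_aux i) (fun j t => (norm_term i t j).le)
  unfold term
  fun_prop

lemma norm_sub_eq (w s t : ℝ) :
    ‖Complex.exp (Complex.I * ((w * s : ℝ) : ℂ)) - Complex.exp (Complex.I * ((w * t : ℝ) : ℂ))‖ =
      ‖Complex.exp (Complex.I * ((w * (s - t) : ℝ) : ℂ)) - 1‖ := by
  have : Complex.exp (Complex.I * ((w * s : ℝ) : ℂ)) - Complex.exp (Complex.I * ((w * t : ℝ) : ℂ)) =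
      Complex.exp (Complex.I * ((w * t : ℝ) : ℂ)) *
      (Complex.exp (Complex.I * ((w * (s - t) : ℝ) : ℂ)) - 1) := by
    rw [mul_sub, ← Complex.exp_add, mul_one]
    congr 2
    push_cast; ring
  rw [this, norm_mul, Complex.norm_exp_I_mul_ofReal, one_mul]

lemma term_sub_norm (i : ℕ) (s t : ℝ) (j : ℕ) : ‖term i s j - term i t j‖ =
    (1 / 4 : ℝ) ^ (3 * j + i) *
      ‖Complex.exp (Complex.I * ((16 ^ (3 * j + i) * (s - t) : ℝ) : ℂ)) - 1‖ := by
  unfold term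
  rw [← mul_sub, norm_mul, norm_sub_eq, Complex.norm_real, Real.norm_of_nonneg (by positivity)]

lemma term_sub_le (i : ℕ) (s t : ℝ) (j : ℕ) :
    ‖term i s j - term i t j‖ ≤ 4 ^ (3 * j + i) * |s - t| := by
  rw [term_sub_norm]
  have h1 := Real.norm_exp_I_mul_ofReal_sub_one_le (x := 16 ^ (3 * j + i) * (s - t))
  rw [Real.norm_eq_abs, abs_mul, abs_of_nonneg (by positivity : (0 : ℝ) ≤ 16 ^ (3 * j + i))] at h1
  calc (1 / 4 : ℝ) ^ (3 * j + i) * _ ≤ (1 / 4 : ℝ) ^ (3 * j + i) * (16 ^ (3 * j + i) * |s - t|) := by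
        gcongr
    _ = ((1 / 4) * 16) ^ (3 * j + i) * |s - t| := by rw [mul_pow]; ring
    _ = _ := by norm_num

lemma term_sub_le' (i : ℕ) (s t : ℝ) (j : ℕ) :
    ‖term i s j - term i t j‖ ≤ 2 * (1 / 4 : ℝ) ^ (3 * j + i) := by
  calc ‖term i s j - term i t j‖ ≤ ‖term i s j‖ + ‖term i t j‖ := norm_sub_le _ _
    _ = _ := by rw [norm_term, norm_term]; ring

/-- the main term -/
lemma term_sub_ge (i : ℕ) (s t : ℝ) (j : ℕ) (h : 16 ^ (3 * j + i) * |s - t| ≤ Real.pi) :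
    2 / Real.pi * (4 ^ (3 * j + i) * |s - t|) ≤ ‖term i s j - term i t j‖ := by
  rw [term_sub_norm, Complex.norm_exp_I_mul_ofReal_sub_one]
  set w : ℝ := 16 ^ (3 * j + i) with hw
  have hw0 : 0 < w := by positivity
  have hpi := Real.pi_pos
  have h1 : ‖2 * Real.sin (w * (s - t) / 2)‖ = 2 * Real.sin (w * |s - t| / 2) := by
    rw [norm_mul, Real.norm_eq_abs, Real.norm_eq_abs, abs_two]
    congr 1
    rcases le_total 0 (s - t) with h0 | h0
    · rw [abs_of_nonneg h0] at h ⊢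
      rw [abs_of_nonneg]
      exact Real.sin_nonneg_of_nonneg_of_le_pi (by positivity) (by linarith)
    · rw [abs_of_nonpos h0] at h ⊢
      have : w * (s - t) / 2 = -(w * -(s - t) / 2) := by ring
      rw [this, Real.sin_neg, abs_neg, abs_of_nonneg]
      exact Real.sin_nonneg_of_nonneg_of_le_pi
        (by have : 0 ≤ -(s - t) := by linarith
            positivity) (by linarith)
  rw [h1]
  have h2 : 2 / Real.pi * (w * |s - t| / 2) ≤ Real.sin (w * |s - t| / 2) :=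
    Real.mul_le_sin (by positivity) (by linarith)
  have h3 : (4 : ℝ) ^ (3 * j + i) = (1 / 4) ^ (3 * j + i) * w := by
    rw [hw, ← mul_pow]; norm_num
  rw [h3]
  calc 2 / Real.pi * ((1 / 4) ^ (3 * j + i) * w * |s - t|) =
        (1 / 4 : ℝ) ^ (3 * j + i) * (2 * (2 / Real.pi * (w * |s - t| / 2))) := by ring
    _ ≤ _ := by gcongr

lemma Z_lower {s t : ℝ} (hne : s ≠ t) (hst : |s - t| ≤ 1) :
    ∃ i < 3, |s - t| ≤ 100 * ‖Z i s - Z i t‖ ^ 2 := by
  have hδ : 0 < |s - t| := abs_pos.2 (sub_ne_zero.2 hne)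
  set δ := |s - t| with hδdef
  have hpi3 := Real.pi_gt_three
  have hpi4 := Real.pi_lt_d2
  obtain ⟨k, hk1, hk2⟩ := exists_nat_pow_near (x := Real.pi / δ) (y := 16)
    (by rw [le_div_iff₀ hδ]; linarith) (by norm_num)
  rw [le_div_iff₀ hδ] at hk1
  rw [div_lt_iff₀ hδ] at hk2
  set i := k % 3 with hi
  set q := k / 3 with hq
  have hkq : 3 * q + i = k := Nat.div_add_mod k 3
  refine ⟨i, Nat.mod_lt _ (by norm_num), ?_⟩
  -- decomposition
  have hsum : Z i s - Z i t = ∑' j, (term i s j - term i t j) :=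
    ((summable_term i s).tsum_sub (summable_term i t)).symm
  have hS : Summable fun j => term i s j - term i t j := (summable_term i s).sub (summable_term i t)
  have hdec := hS.sum_add_tsum_nat_add (q + 1)
  rw [← hsum, Finset.sum_range_succ] at hdec
  have hmain := term_sub_ge i s t q (by rw [hkq]; exact hk1)
  rw [hkq] at hmain
  have hlow : ‖∑ j ∈ Finset.range q, (term i s j - term i t j)‖ ≤ 4 ^ k * δ / 63 := by
    calc ‖∑ j ∈ Finset.range q, (term i s j - term i t j)‖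
        ≤ ∑ j ∈ Finset.range q, ‖term i s j - term i t j‖ := norm_sum_le _ _
      _ ≤ ∑ j ∈ Finset.range q, (64 : ℝ) ^ j * (4 ^ i * δ) := by
          refine Finset.sum_le_sum fun j _ => (term_sub_le i s t j).trans (le_of_eq ?_)
          rw [pow_add, pow_mul]; norm_num; ring
      _ = (64 ^ q - 1) / 63 * (4 ^ i * δ) := by
          rw [← Finset.sum_mul, geom_sum_eq (by norm_num)]; norm_num
      _ ≤ 64 ^ q / 63 * (4 ^ i * δ) := by gcongr; linarith
      _ = 4 ^ k * δ / 63 := by rw [← hkq, pow_add, pow_mul]; norm_num; ring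
  have hhigh : ‖∑' j, (term i s (j + (q + 1)) - term i t (j + (q + 1)))‖ ≤
      2 * (1 / 4) ^ k / 63 := by
    have hb : ∀ j : ℕ, 2 * (1 / 4 : ℝ) ^ (3 * (j + (q + 1)) + i) =
        (1 / 64 : ℝ) ^ j * (2 * (1 / 4) ^ k / 64) := by
      intro j
      have : 3 * (j + (q + 1)) + i = 3 * j + 3 + k := by omega
      rw [this, pow_add, pow_add, pow_mul]; norm_num; ring
    have hsum' : HasSum (fun j : ℕ => 2 * (1 / 4 : ℝ) ^ (3 * (j + (q + 1)) + i))
        (2 * (1 / 4) ^ k / 63) := by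
      simp_rw [hb]
      have := (hasSum_geometric_of_lt_one (r := (1 / 64 : ℝ)) (by norm_num)
        (by norm_num)).mul_right (2 * (1 / 4 : ℝ) ^ k / 64)
      have e : (1 - 1 / 64 : ℝ)⁻¹ * (2 * (1 / 4) ^ k / 64) = 2 * (1 / 4) ^ k / 63 := by
        ring
      rw [e] at this
      exact this
    exact tsum_of_norm_bounded hsum' fun j => term_sub_le' i s t _
  have h4k : (1 / 4 : ℝ) ^ k ≤ 4 ^ k * (16 * δ / Real.pi) := by
    have e1 : (1 / 4 : ℝ) ^ k * 16 ^ k = 4 ^ k := by rw [← mul_pow]; norm_num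
    have e2 : 1 ≤ 16 ^ k * (16 * δ / Real.pi) := by
      rw [mul_div_assoc', le_div_iff₀ Real.pi_pos]
      rw [pow_succ] at hk2
      linarith
    calc (1 / 4 : ℝ) ^ k = (1 / 4) ^ k * 1 := by ring
      _ ≤ (1 / 4) ^ k * (16 ^ k * (16 * δ / Real.pi)) := by gcongr
      _ = _ := by rw [← mul_assoc, e1]
  have hp1 : 16 * δ / Real.pi ≤ 16 * δ / 3 := by gcongr
  have hp2 : (0.63 : ℝ) ≤ 2 / Real.pi := by
    rw [le_div_iff₀ Real.pi_pos]; linarith
  have hK : 0 < 4 ^ k * δ := by positivity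
  have hge : 4 ^ k * δ / 4 ≤ ‖Z i s - Z i t‖ := by
    have e1 : ‖term i s q - term i t q‖ ≤ ‖Z i s - Z i t‖ +
        ‖∑ j ∈ Finset.range q, (term i s j - term i t j)‖ +
        ‖∑' j, (term i s (j + (q + 1)) - term i t (j + (q + 1)))‖ := by
      have : term i s q - term i t q = (Z i s - Z i t) -
        ∑ j ∈ Finset.range q, (term i s j - term i t j) -
        ∑' j, (term i s (j + (q + 1)) - term i t (j + (q + 1))) := by
        rw [← hdec]; ring
      rw [this]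
      exact (norm_sub_le _ _).trans (add_le_add (norm_sub_le _ _) le_rfl)
    have e2 : 4 ^ k * (16 * δ / Real.pi) ≤ 4 ^ k * (16 * δ / 3) := by gcongr
    have e3 : (0.63 : ℝ) * (4 ^ k * δ) ≤ 2 / Real.pi * (4 ^ k * δ) :=
      mul_le_mul_of_nonneg_right hp2 hK.le
    nlinarith
  have h16 : Real.pi / 16 < 16 ^ k * δ := by
    rw [pow_succ] at hk2
    linarith
  have h0 : (0 : ℝ) ≤ 4 ^ k * δ / 4 := by positivity
  have hsq : (4 ^ k * δ / 4) ^ 2 ≤ ‖Z i s - Z i t‖ ^ 2 := pow_le_pow_left₀ h0 hge 2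
  have e5 : (4 ^ k * δ / 4) ^ 2 = (16 ^ k * δ) * δ / 16 := by
    have : ((4 : ℝ) ^ k) ^ 2 = 16 ^ k := by rw [← pow_mul, mul_comm, pow_mul]; norm_num
    rw [div_pow, mul_pow, this]; ring
  rw [e5] at hsq
  have e6 : (3 / 16) * δ ≤ (16 ^ k * δ) * δ := by
    have : (3 / 16 : ℝ) ≤ 16 ^ k * δ := by linarith
    exact mul_le_mul_of_nonneg_right this hδ.le
  linarith

/-- six dimensional space -/
abbrev E6 : Type := EuclideanSpace ℝ (Fin 6)

/-- the curve -/
noncomputable def γ (t : ℝ) : E6 :=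
  !₂[10 * (Z 0 t).re, 10 * (Z 0 t).im, 10 * (Z 1 t).re, 10 * (Z 1 t).im,
    10 * (Z 2 t).re, 10 * (Z 2 t).im]

lemma continuous_γ : Continuous γ := by
  have h0 := continuous_Z 0
  have h1 := continuous_Z 1
  have h2 := continuous_Z 2
  unfold γ
  refine (PiLp.continuous_toLp 2 (fun _ : Fin 6 => ℝ)).comp ?_
  rw [continuous_pi_iff]
  intro i
  fin_cases i <;> simp <;> fun_prop

lemma γ_dist (s t : ℝ) : ‖γ s - γ t‖ ^ 2 = 100 * (‖Z 0 s - Z 0 t‖ ^ 2 + ‖Z 1 s - Z 1 t‖ ^ 2 +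
    ‖Z 2 s - Z 2 t‖ ^ 2) := by
  rw [EuclideanSpace.norm_sq_eq, Fin.sum_univ_six]
  simp only [γ, PiLp.sub_apply, Matrix.cons_val]
  rw [← Complex.normSq_eq_norm_sq, ← Complex.normSq_eq_norm_sq, ← Complex.normSq_eq_norm_sq,
    Complex.normSq_apply, Complex.normSq_apply, Complex.normSq_apply]
  simp only [Real.norm_eq_abs, sq_abs, Complex.sub_re, Complex.sub_im]
  ring

lemma γ_lower {s t : ℝ} (hs : s ∈ Icc (0 : ℝ) 1) (ht : t ∈ Icc (0 : ℝ) 1) :
    |s - t| ≤ ‖γ s - γ t‖ ^ 2 := by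
  rcases eq_or_ne s t with rfl | hne
  · simp
  have hst : |s - t| ≤ 1 := by
    rw [abs_le]; constructor <;> linarith [hs.1, hs.2, ht.1, ht.2]
  obtain ⟨i, hi, h⟩ := Z_lower hne hst
  rw [γ_dist]
  have h0 := sq_nonneg ‖Z 0 s - Z 0 t‖
  have h1 := sq_nonneg ‖Z 1 s - Z 1 t‖
  have h2 := sq_nonneg ‖Z 2 s - Z 2 t‖
  interval_cases i <;> linarith

end Pool.Agent.R221.KP
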