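import Pool.Agent.R221.KP.Curve

set_option autoImplicit false

open Filter Topology Set MeasureTheory

namespace Pool.Agent.R221.KP

/-- Euclidean space of dimension `d`. -/
abbrev Sp (d : ℕ) : Type := EuclideanSpace ℝ (Fin d)

/-- `(φ, ψ)` is admissible in the dual problem. -/
def IsDualPair {d : ℕ} (ρ μ : Measure (Sp d)) (c : Sp d → Sp d → ℝ) (φ ψ : Sp d → ℝ) : Prop :=
  Integrable φ ρ ∧ Integrable ψ μ ∧ ∀ x y, φ x + ψ y ≤ c x y

/-- `(φ, ψ)` is a pair of Kantorovich potentials (an optimal pair of the dual problem). -/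
def IsPotentialPair {d : ℕ} (ρ μ : Measure (Sp d)) (c : Sp d → Sp d → ℝ) (φ ψ : Sp d → ℝ) : Prop :=
  IsDualPair ρ μ c φ ψ ∧ ∀ φ' ψ' : Sp d → ℝ, IsDualPair ρ μ c φ' ψ' →
    ∫ x, φ' x ∂ρ + ∫ y, ψ' y ∂μ ≤ ∫ x, φ x ∂ρ + ∫ y, ψ y ∂μ

/-- The standing hypotheses (H). -/
def HypH {d : ℕ} (ρ μ : Measure (Sp d)) (c : Sp d → Sp d → ℝ) : Prop :=
  Bornology.IsBounded μ.support ∧ ContDiff ℝ 1 (fun p : Sp d × Sp d => c p.1 p.2) ∧
    ∃ a b : Sp d → ℝ, UpperSemicontinuous a ∧ UpperSemicontinuous b ∧ Integrable a ρ ∧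
      Integrable b μ ∧ ∀ x y, |c x y| ≤ a x + b y

/-- Two pairs agree up to a constant. -/
def UpToConst {d : ℕ} (ρ μ : Measure (Sp d)) (φ₀ ψ₀ φ₁ ψ₁ : Sp d → ℝ) : Prop :=
  ∃ l : ℝ, (∀ᵐ x ∂ρ, φ₀ x - φ₁ x = l) ∧ ∀ᵐ y ∂μ, ψ₀ y - ψ₁ y = -l

/-- The arc. -/
noncomputable def arc : Set E6 := γ '' Icc 0 1

/-- The measure on the arc. -/
noncomputable def rho : Measure E6 := (volume.restrict (Icc (0 : ℝ) 1)).map γ

lemma isCompact_arc : IsCompact arc := isCompact_Icc.image continuous_γ

lemma isConnected_arc : IsConnected arc :=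
  (isConnected_Icc zero_le_one).image γ continuous_γ.continuousOn

instance rho_prob : IsProbabilityMeasure rho := by
  have : IsProbabilityMeasure (volume.restrict (Icc (0 : ℝ) 1)) := ⟨by simp⟩
  exact Measure.isProbabilityMeasure_map continuous_γ.measurable.aemeasurable

lemma rho_support : rho.support = arc := by
  apply Subset.antisymm
  · refine Measure.support_subset_of_isClosed isCompact_arc.isClosed ?_
    rw [mem_ae_iff, rho, Measure.map_apply continuous_γ.measurable
      isCompact_arc.isClosed.measurableSet.compl, Measure.restrict_apply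
      (continuous_γ.measurable isCompact_arc.isClosed.measurableSet.compl)]
    have : γ ⁻¹' arcᶜ ∩ Icc 0 1 = ∅ := by
      ext t
      simp only [mem_inter_iff, mem_preimage, mem_compl_iff, mem_empty_iff_false, iff_false,
        not_and]
      exact fun h ht => h ⟨t, ht, rfl⟩
    rw [this, measure_empty]
  · rintro _ ⟨t, ht, rfl⟩
    rw [Measure.mem_support_iff_forall]
    intro U hU
    obtain ⟨V, hVU, hVo, htV⟩ := mem_nhds_iff.1 hU
    refine lt_of_lt_of_le ?_ (measure_mono hVU)
    rw [rho, Measure.map_apply continuous_γ.measurable hVo.measurableSet,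
      Measure.restrict_apply (continuous_γ.measurable hVo.measurableSet)]
    -- a nonempty open subset of the interior
    have hopen : IsOpen (γ ⁻¹' V) := hVo.preimage continuous_γ
    have hcl : t ∈ closure (Ioo (0 : ℝ) 1) := by
      rw [closure_Ioo (by norm_num)]; exact ht
    obtain ⟨s, hs1, hs2⟩ := mem_closure_iff.1 hcl _ hopen htV
    have hne : (γ ⁻¹' V ∩ Ioo (0 : ℝ) 1).Nonempty := ⟨s, hs1, hs2⟩
    have hpos := (hopen.inter isOpen_Ioo).measure_pos volume hne
    exact hpos.trans_le (measure_mono (inter_subset_inter_right _ Ioo_subset_Icc_self))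

/-- the cost -/
noncomputable def cost (x y : E6) : ℝ := ‖x - y‖ ^ 2

/-- the parameter of a point of the arc -/
noncomputable def par (x : E6) : ℝ := Function.invFunOn γ (Icc 0 1) x

lemma par_mem {x : E6} (hx : x ∈ arc) : par x ∈ Icc (0 : ℝ) 1 ∧ γ (par x) = x :=
  ⟨Function.invFunOn_mem hx, Function.invFunOn_eq hx⟩

lemma par_γ {t : ℝ} (ht : t ∈ Icc (0 : ℝ) 1) : par (γ t) = t := by
  have h := par_mem (x := γ t) ⟨t, ht, rfl⟩
  have h1 := γ_lower h.1 ht
  rw [h.2, sub_self, norm_zero] at h1
  have h2 : |par (γ t) - t| ≤ 0 := by simpa using h1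
  have := abs_nonpos_iff.1 h2
  linarith

lemma par_sub {x y : E6} (hx : x ∈ arc) (hy : y ∈ arc) : |par x - par y| ≤ cost x y := by
  have h1 := par_mem hx
  have h2 := par_mem hy
  have := γ_lower h1.1 h2.1
  rw [h1.2, h2.2] at this
  exact this

lemma continuousOn_par : ContinuousOn par arc := by
  rw [Metric.continuousOn_iff]
  intro x hx ε hε
  refine ⟨min 1 ε, by positivity, fun y hy hyx => ?_⟩
  rw [Real.dist_eq]
  refine lt_of_le_of_lt (par_sub hy hx) ?_
  rw [dist_eq_norm] at hyx
  have h1 : ‖y - x‖ < 1 := hyx.trans_le (min_le_left _ _)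
  have h2 : ‖y - x‖ < ε := hyx.trans_le (min_le_right _ _)
  unfold cost
  nlinarith [norm_nonneg (y - x)]

open scoped Classical in
/-- `± par` on the arc and `-1` off it -/
noncomputable def pot (σ : ℝ) (x : E6) : ℝ := if x ∈ arc then σ * par x else -1

lemma measurable_pot (σ : ℝ) : Measurable (pot σ) := by
  classical
  have : pot σ = arc.piecewise (fun x => σ * par x) (fun _ => -1) := by
    funext x
    by_cases h : x ∈ arc <;> simp [pot, h]
  rw [this]
  exact ContinuousOn.measurable_piecewise (continuousOn_const.mul continuousOn_par)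
    continuousOn_const isCompact_arc.isClosed.measurableSet

lemma pot_bound (σ : ℝ) (hσ : |σ| ≤ 1) (x : E6) : |pot σ x| ≤ 1 := by
  unfold pot
  split_ifs with h
  · have := (par_mem h).1
    rw [abs_mul, abs_of_nonneg this.1]
    nlinarith [this.2, this.1, abs_nonneg σ]
  · simp

lemma integrable_pot (σ : ℝ) (hσ : |σ| ≤ 1) : Integrable (pot σ) rho :=
  Integrable.of_bound (measurable_pot σ).aestronglyMeasurable 1
    (Eventually.of_forall fun x => by rw [Real.norm_eq_abs]; exact pot_bound σ hσ x)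

lemma pot_add_le (x y : E6) : pot 1 x + pot (-1) y ≤ cost x y := by
  have hc : 0 ≤ cost x y := by unfold cost; positivity
  by_cases hx : x ∈ arc
  · by_cases hy : y ∈ arc
    · have := le_abs_self (par x - par y)
      have h2 := par_sub hx hy
      simp only [pot, hx, hy, if_true]
      linarith
    · have := (par_mem hx).1
      simp only [pot, hx, hy, if_true, if_false]
      linarith [this.2]
  · have h1 : pot 1 x = -1 := by simp [pot, hx]
    have h2 := (abs_le.1 (pot_bound (-1) (by simp) y)).2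
    linarith

lemma ae_arc : ∀ᵐ x ∂rho, x ∈ arc := by
  rw [← rho_support]
  exact Measure.support_mem_ae

lemma integral_le {φ ψ : E6 → ℝ} (h : IsDualPair rho rho cost φ ψ) :
    ∫ x, φ x ∂rho + ∫ y, ψ y ∂rho ≤ 0 := by
  rw [← integral_add h.1 h.2.1]
  refine integral_nonpos fun x => ?_
  have := h.2.2 x x
  simpa [cost] using this

lemma potentials_zero : IsPotentialPair rho rho cost (fun _ => 0) (fun _ => 0) := by
  refine ⟨⟨integrable_zero _ _ _, integrable_zero _ _ _, fun x y => ?_⟩, fun φ' ψ' h => ?_⟩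
  · simp only [add_zero]; unfold cost; positivity
  · simpa using integral_le h

lemma potentials_par : IsPotentialPair rho rho cost (pot 1) (pot (-1)) := by
  refine ⟨⟨integrable_pot 1 (by simp), integrable_pot (-1) (by simp), pot_add_le⟩,
    fun φ' ψ' h => ?_⟩
  refine (integral_le h).trans (le_of_eq ?_)
  rw [← integral_add (integrable_pot 1 (by simp)) (integrable_pot (-1) (by simp))]
  symm
  apply integral_eq_zero_of_ae
  filter_upwards [ae_arc] with x hx
  simp [pot, hx]

lemma not_upToConst : ¬ UpToConst rho rho (fun _ => 0) (fun _ => 0) (pot 1) (pot (-1)) := by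
  rintro ⟨l, h1, -⟩
  have h2 : ∀ᵐ t ∂(volume.restrict (Icc (0 : ℝ) 1)), 0 - pot 1 (γ t) = l :=
    ae_of_ae_map continuous_γ.measurable.aemeasurable h1
  rw [ae_restrict_iff' measurableSet_Icc] at h2
  have h3 : ∀ᵐ t ∂(volume : Measure ℝ), t ∈ Icc (0 : ℝ) 1 → t = -l := by
    filter_upwards [h2] with t ht htI
    have := ht htI
    have hm : γ t ∈ arc := ⟨t, htI, rfl⟩
    simp only [pot, hm, if_true, par_γ htI] at this
    linarith
  have h4 : volume (Icc (0 : ℝ) 1 \ {-l}) = 0 := by
    refine measure_mono_null ?_ h3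
    rintro t ⟨ht, hne⟩ hcon
    exact hne (hcon ht)
  have h5 : volume (Icc (0 : ℝ) 1) ≤ volume (Icc (0 : ℝ) 1 \ {-l}) + volume {(-l : ℝ)} := by
    refine (measure_mono ?_).trans (measure_union_le _ _)
    intro t ht
    by_cases h : t = -l
    · exact Or.inr h
    · exact Or.inl ⟨ht, h⟩
  rw [h4, Real.volume_singleton, Real.volume_Icc] at h5
  norm_num at h5

lemma hypH : HypH rho rho cost := by
  refine ⟨by rw [rho_support]; exact isCompact_arc.isBounded, ?_, fun x => 2 * ‖x‖ ^ 2,
    fun y => 2 * ‖y‖ ^ 2, ?_, ?_, ?_, ?_, ?_⟩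
  · unfold cost
    exact (contDiff_fst.sub contDiff_snd).norm_sq ℝ
  · exact Continuous.upperSemicontinuous (by fun_prop)
  · exact Continuous.upperSemicontinuous (by fun_prop)
  all_goals try
    obtain ⟨C, hC⟩ := isCompact_arc.isBounded.exists_norm_le
    refine Integrable.of_bound (Continuous.aestronglyMeasurable (by fun_prop)) (2 * C ^ 2) ?_
    filter_upwards [ae_arc] with x hx
    rw [Real.norm_of_nonneg (by positivity)]
    have := hC x hx
    have h0 := norm_nonneg x
    gcongr
  intro x y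
  unfold cost
  rw [abs_of_nonneg (by positivity)]
  have h1 := norm_sub_le x y
  have h2 := norm_nonneg (x - y)
  nlinarith [sq_nonneg (‖x‖ - ‖y‖), norm_nonneg x, norm_nonneg y]

end Pool.Agent.R221.KP
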